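import Pool.Agent.MP_ea150c_mp.H49.SpecG

/-! The chart axioms of the frame of a model. -/

set_option linter.unusedSectionVars false

namespace Pool.Agent.MP_ea150c_mp.H74

open Pool.Agent.MP_ea150c_mp.H49

noncomputable section

theorem sum_sub_single_nat {ι : Type} [Fintype ι] [DecidableEq ι] (l : ι → ℕ) (i : ι)
    (h : l i ≠ 0) : ∑ k, l k = 1 + ∑ k, (l - Pi.single i 1 : ι → ℕ) k := by
  have h1 : ∀ k, l k = (if k = i then 1 else 0) + (l - Pi.single i 1 : ι → ℕ) k := by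
    intro k
    by_cases hk : k = i
    · subst hk
      simp only [Pi.sub_apply, Pi.single_eq_same, if_true]
      omega
    · simp [hk]
  rw [Finset.sum_congr rfl fun k _ => h1 k, Finset.sum_add_distrib]
  simp

theorem tXi_mem {σ I Γ Λ : Type} [Fintype σ] [DecidableEq σ] [AddCommGroup Γ] [CommRing Λ]
    (tor : σ → Bool) (cv : I → σ) (wt : σ → Γ) (J : Finset I) (x : σ) (hx : tor x = true)
    (hJ : ∀ v, v ∉ J → cv v ≠ x) : tXi tor Λ x ∈ Tp tor cv wt Λ J (-wt x) := by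
  classical
  intro u hu
  rw [tXi, monoZ, dif_pos (single_neg_mem tor x hx), AddMonoidAlgebra.coeff_single,
    Finsupp.single_apply] at hu
  split_ifs at hu with e
  · subst e
    refine ⟨fun v hv => ?_, ?_⟩
    · simp [Pi.single_eq_of_ne (hJ v hv)]
    · rw [Finset.sum_eq_single x]
      · simp
      · intro y _ hy
        simp [Pi.single_eq_of_ne hy]
      · simp
  · exact (hu rfl).elim

theorem dop_level {ι A : Type} [Fintype ι] [DecidableEq ι] (p : ℕ) [Fact p.Prime] [CommRing A]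
    [Algebra ℤ_[p] A] (d : A →ₗ[ℤ_[p]] A) (f : ι → A) (b : PS ι A) (m : ℕ)
    (hb : ∀ l : ι → ℕ, ¬ ∑ i, l i ≤ m → b l = 0) (l : ι → ℕ) (hl : ¬ ∑ i, l i ≤ m + 1) :
    DOp p d f b l = 0 := by
  have e : DOp p d f b l =
      d (b l) + ∑ i, d (f i) * (if l i = 0 then 0 else b (l - Pi.single i 1)) := by
    simp only [DOp, LinearMap.add_apply, LinearMap.sum_apply, Pi.add_apply, Finset.sum_apply]
    rfl
  rw [e, hb l (by omega), map_zero, zero_add]
  refine Finset.sum_eq_zero fun i _ => ?_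
  by_cases h0 : l i = 0
  · rw [if_pos h0, mul_zero]
  · rw [if_neg h0, hb _ (by have := sum_sub_single_nat l i h0; omega), mul_zero]

section Chart
variable {I τ ι : Type} [LinearOrder I] [Fintype I] [Fintype τ] [DecidableEq τ] [Fintype ι]
  [DecidableEq ι] (p : ℕ) [Fact p.Prime] (j : I)

theorem chi_apply (a : Ainv ℤ_[p] I τ) :
    chi p τ j a = tX (torS τ j) ℤ_[p] (cS τ j) ^ 2 * rhoA ℤ_[p] τ j a := rfl

theorem chiInv_apply (z : Tor ℤ_[p] (torS τ j)) :
    chiInv p τ j z = kapS ℤ_[p] τ j (tXi (torS τ j) ℤ_[p] (cS τ j) ^ 2 * z) := rfl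

theorem cc_one : tX (torS τ j) ℤ_[p] (cS τ j) ^ 2 * tXi (torS τ j) ℤ_[p] (cS τ j) ^ 2 = 1 := by
  rw [← mul_pow, tX_mul_tXi _ _ (by simp [torS, torV, cS]), one_pow]

theorem X_smul (a : Ainv ℤ_[p] I τ) (b : PS ι (Ainv ℤ_[p] I τ)) :
    cw p (chi p τ j) (a • b) = rhoA ℤ_[p] τ j a • cw p (chi p τ j) b := by
  funext l
  change chi p τ j (a * b l) = rhoA ℤ_[p] τ j a * chi p τ j (b l)
  rw [chi_apply, chi_apply, map_mul, mul_left_comm]

theorem X_th (f : ι → Ainv ℤ_[p] I τ) (i : ι) (b : PS ι (Ainv ℤ_[p] I τ)) :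
    cw p (chi p τ j) (thOp f i b) =
      thOp (fun i => rhoA ℤ_[p] τ j (f i)) i (cw p (chi p τ j) b) := by
  funext l
  change chi p τ j (((l i + 1 : ℕ) : Ainv ℤ_[p] I τ) * b l +
      f i * (if l i = 0 then 0 else b (l - Pi.single i 1))) =
    ((l i + 1 : ℕ) : Tor ℤ_[p] (torS τ j)) * chi p τ j (b l) + rhoA ℤ_[p] τ j (f i) *
      (if l i = 0 then 0 else chi p τ j (b (l - Pi.single i 1)))
  simp only [chi_apply, map_add, map_mul, map_natCast]
  split_ifs
  · simp only [map_zero]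
    ring
  · ring

end Chart

theorem g2b (g1 : G1) (s1 : S1) (s2 : S2) : G2b := by
  intro I τ ι _ _ _ _ _ _ M h p hp hp7
  have k1 := fun j => (g1 I τ ι M h ℤ_[p] j).1
  have k2 := fun j => (g1 I τ ι M h ℤ_[p] j).2.1
  have k4 := fun j => (g1 I τ ι M h ℤ_[p] j).2.2.2.1
  have k6 := fun j => (g1 I τ ι M h ℤ_[p] j).2.2.2.2.2.1
  have k10 := fun j => (g1 I τ ι M h ℤ_[p] j).2.2.2.2.2.2.2.2.2
  have t := fun j : I => s1 ℤ_[p] (Sl τ j) (torS τ j)
  have tw := fun (j : I) J => (t j).2.2.2.2.2.2.2.2 I (Gam I) (cvS τ j) (fun y => M.wtv y.1) J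
  have u := fun j : I => s2 p hp7 (Sl τ j) ι (torS τ j) fun i => rhoA ℤ_[p] τ j (M.fA ℤ_[p] h i)
  have tf : ∀ g : Gam I, p • g = 0 → g = 0 := fun g hg => by
    exact (smul_eq_zero.1 hg).resolve_left hp.out.ne_zero
  have uw := fun (j : I) (J : Finset I) (hj : j ∈ J) => (u j).2.2.2.2.2.2 I (Gam I) (cvS τ j) (fun y => M.wtv y.1)
    M.om J tf fun i => (k4 j J _ _ hj).1 (k6 j i J)
  have c1 : ∀ (j : I) z, chi p τ j (chiInv p τ j z) = z := fun j z => by
    rw [chi_apply, chiInv_apply, k1, ← mul_assoc, cc_one, one_mul]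
  have c2 : ∀ (j : I) a, chiInv p τ j (chi p τ j a) = a := fun j a => by
    rw [chi_apply, chiInv_apply, ← mul_assoc, mul_comm (_ ^ 2), cc_one, one_mul, k2]
  have X1 : ∀ (j : I) (b : PS ι _), cw p (chi p τ j) (cw p (chiInv p τ j) b) = b :=
    fun j b => funext fun l => c1 j (b l)
  have Xinj : ∀ (j : I) (b b' : PS ι (Ainv ℤ_[p] I τ)),
      cw p (chi p τ j) b = cw p (chi p τ j) b' → b = b' := fun j b b' e => funext fun l => by
    rw [← c2 j (b l), ← c2 j (b' l)]
    exact congrArg _ (congrFun e l)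
  have XD : ∀ (j : I) y b, cw p (chi p τ j) ((M.frame p h).D j y b) =
      DOp p (pd _ ℤ_[p] y) (fun i => rhoA ℤ_[p] τ j (M.fA ℤ_[p] h i)) (cw p (chi p τ j) b) :=
    fun j y b => by
      simp only [Model.frame, LinearMap.comp_apply]
      rw [X1]
  have XP : ∀ (j : I) b, cw p (chi p τ j) ((M.frame p h).Ψ j b) =
      stdPsi p _ (fun i => rhoA ℤ_[p] τ j (M.fA ℤ_[p] h i)) (cw p (chi p τ j) b) :=
    fun j b => by
      simp only [Model.frame, LinearMap.comp_apply]
      rw [X1]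
  have XT : ∀ (j : I) s b, cw p (chi p τ j) ((M.frame p h).th s b) =
      thOp (fun i => rhoA ℤ_[p] τ j (M.fA ℤ_[p] h i)) s (cw p (chi p τ j) b) :=
    fun j s b => X_th p j _ s b
  have rd : ∀ (j : I) y a, rhoA ℤ_[p] τ j ((M.frame p h).d j y a) = pd _ ℤ_[p] y (rhoA ℤ_[p] τ j a) :=
    fun j y a => k1 j _
  have rx : ∀ (j : I) y, rhoA ℤ_[p] τ j ((M.frame p h).x j y) = tX _ ℤ_[p] y := fun j y => k1 j _
  have rp : ∀ (j : I) a, rhoA ℤ_[p] τ j ((M.frame p h).φ j a) = phi0 _ ℤ_[p] p (rhoA ℤ_[p] τ j a) :=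
    fun j a => k1 j _
  have rinj : ∀ (j : I) (a a' : Ainv ℤ_[p] I τ), rhoA ℤ_[p] τ j a = rhoA ℤ_[p] τ j a' → a = a' :=
    fun j a a' e => by rw [← k2 j a, e, k2]
  have mem : ∀ (j : I) J, j ∈ J → ∀ w (l : ι → ℕ) a,
      a ∈ M.Ap ℤ_[p] J (w + M.w0 + ∑ i, l i • M.om i) ↔
      chi p τ j a ∈ Tp (torS τ j) (cvS τ j) (fun y => M.wtv y.1) ℤ_[p] J
        (w + ∑ i, (l i + 1) • M.om i - ∑ y : Sl τ j, M.wtv y.1) := by
    intro j J hj w l a
    have e : w + ∑ i, (l i + 1) • M.om i - ∑ y : Sl τ j, M.wtv y.1 =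
        M.wtv (cS τ j).1 + (M.wtv (cS τ j).1 + (w + M.w0 + ∑ i, l i • M.om i)) := by
      rw [k10, Model.w0]
      simp only [succ_nsmul, Finset.sum_add_distrib, zero_nsmul, zero_add, cS]
      abel
    obtain ⟨-, w2, w3, -⟩ := tw j J
    rw [e, k4 j J _ _ hj, chi_apply]
    constructor
    · intro ha
      rw [sq, mul_assoc]
      exact w3 _ _ _ _ (w2 _) (w3 _ _ _ _ (w2 _) ha)
    · intro ha
      have hi := tXi_mem (Λ := ℤ_[p]) (torS τ j) (cvS τ j) (fun y => M.wtv y.1) J (cS τ j)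
        (by simp [torS, torV, cS]) fun v hv e => hv (by
          have : v = j := by simpa [cvS, cS] using e
          rwa [this])
      have := w3 _ _ _ _ hi (w3 _ _ _ _ hi ha)
      rwa [neg_add_cancel_left, neg_add_cancel_left, ← mul_assoc, ← sq, ← mul_assoc,
        mul_comm (_ ^ 2), cc_one, one_mul] at this
  have memH0 : ∀ J w (b : PS ι (Ainv ℤ_[p] I τ)), b ∈ M.Bh p J w ↔
      ∀ l, b l ∈ M.Ap ℤ_[p] J (w + M.w0 + ∑ i, l i • M.om i) :=
    fun J w b => ⟨fun hb l => hb l trivial, fun hb l _ => hb l⟩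
  have memH : ∀ (j : I) J, j ∈ J → ∀ w (b : PS ι (Ainv ℤ_[p] I τ)), b ∈ M.Bh p J w ↔
      cw p (chi p τ j) b ∈ BS (torS τ j) (cvS τ j) (fun y => M.wtv y.1) p M.om J w :=
    fun j J hj w b => ⟨fun hb l _ => (mem j J hj w l _).1 (hb l trivial),
      fun hb l _ => (mem j J hj w l _).2 (hb l trivial)⟩
  have memL : ∀ J w m (b : PS ι (Ainv ℤ_[p] I τ)), b ∈ M.Bl p J w m ↔
      b ∈ M.Bh p J w ∧ ∀ l : ι → ℕ, ¬ ∑ i, l i ≤ m → b l = 0 := by
    intro J w m b
    constructor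
    · intro hb
      refine ⟨(memH0 _ _ _).2 fun l => ?_, fun l hl => ?_⟩
      · have := (Submodule.mem_pi.1 hb) l trivial
        by_cases hl : ∑ i, l i ≤ m
        · simpa only [if_pos hl] using this
        · simp only [if_neg hl, Submodule.mem_bot] at this
          rw [this]; exact zero_mem _
      · have := (Submodule.mem_pi.1 hb) l trivial
        simpa only [if_neg hl, Submodule.mem_bot] using this
    · rintro ⟨h1, h2⟩
      refine Submodule.mem_pi.2 fun l _ => ?_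
      by_cases hl : ∑ i, l i ≤ m
      · simpa only [if_pos hl] using (memH0 _ _ _).1 h1 l
      · simpa only [if_neg hl, Submodule.mem_bot] using h2 l hl
  have DH : ∀ J (j : I) (i : Sl τ j) w b, j ∈ J → b ∈ M.Bh p J w →
      (M.frame p h).D j i b ∈ M.Bh p J (w - M.wtv i.1) := fun J j i w b hj hb => by
    rw [memH j J hj, XD]
    exact (uw j J hj).1 i w _ ((memH j J hj w b).1 hb)
  have p1 : 1 ≤ p := by omega
  refine ⟨fun J j i hj => ?_, fun J j i w a hj ha => ?_, fun j i a b => ?_, fun j i l => ?_,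
    fun j i a b => ?_, fun j i l b => ?_, fun j i s b => ?_, DH, fun J j i w l b hj hb => ?_,
    fun J j w a hj ha => ?_, fun j i a => ?_, fun j a b => ?_, fun j i b => ?_, fun j s b => ?_,
    fun J j w b S hj hb => ?_⟩
  · refine (k4 j J _ _ hj).2 ?_
    rw [rx]
    exact (tw j J).2.1 i
  · refine (k4 j J _ _ hj).2 ?_
    rw [rd]
    exact (tw j J).2.2.2.1 w i _ ((k4 j J _ _ hj).1 ha)
  · apply rinj j
    rw [rd, map_add]
    simp only [map_mul (rhoA ℤ_[p] τ j)]
    rw [rd, rd, (t j).1]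
  · apply rinj j
    rw [rd, rx, (t j).2.1]
    split_ifs
    · exact (map_one _).symm
    · exact (map_zero _).symm
  · apply Xinj j
    rw [XD, map_add, X_smul, X_smul, X_smul, XD, rd, (u j).1]
  · apply Xinj j
    rw [XD, XD, XD, XD, (u j).2.1]
  · apply Xinj j
    rw [XD, XT, XT, XD, (u j).2.2.1]
  · obtain ⟨h1, h2⟩ := (memL _ _ _ _).1 hb
    refine (memL _ _ _ _).2 ⟨DH J j i w b hj h1, fun l' hl => ?_⟩
    rw [← c2 j ((M.frame p h).D j i b l')]
    have e := congrFun (XD j i b) l'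
    rw [dop_level p _ _ _ l (fun l'' hl' => ?_) l' hl] at e
    · exact (congrArg _ e).trans (map_zero _)
    · exact (congrArg (chi p τ j) (h2 l'' hl')).trans (map_zero _)
  · refine (k4 j J _ _ hj).2 ?_
    rw [rp]
    exact (tw j J).2.2.2.2.1 w p _ ((k4 j J _ _ hj).1 ha)
  · apply rinj j
    rw [rd, rp]
    simp only [map_mul (rhoA ℤ_[p] τ j), map_pow (rhoA ℤ_[p] τ j), map_natCast (rhoA ℤ_[p] τ j)]
    rw [rx, rp, rd, (t j).2.2.2.2.1 p p1]
  · apply Xinj j
    rw [XP, X_smul, X_smul, XP, rp, (u j).2.2.2.1]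
  · apply Xinj j
    rw [XP, XD, map_smul, XD, XP, X_smul, map_pow, rx, (u j).2.2.2.2.1]
  · apply Xinj j
    rw [XP, XT, map_smul, XT, XP, (u j).2.2.2.2.2.1]
  · have hr : ∀ l : ι → ℕ, ∃ r ∈ M.Ap ℤ_[p] J (w + M.w0 + ∑ i, l i • M.om i),
        (M.frame p h).Ψ j b l = (p : ℤ_[p]) ^ nu (∑ i, l i) • r := by
      intro l
      obtain ⟨z, hz, e⟩ := (uw j J hj).2 w _ l ((memH j J hj _ b).1 hb)
      refine ⟨chiInv p τ j z, (mem j J hj w l _).2 (by rwa [c1]), ?_⟩
      rw [← map_smul, ← c2 j ((M.frame p h).Ψ j b l)]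
      exact congrArg _ ((congrFun (XP j b) l).trans e.symm)
    choose r hr1 hr2 using hr
    refine ⟨∑ l ∈ Fintype.piFinset fun _ : ι => Finset.range (2 * S + 1),
      Pi.single l ((M.frame p h).Ψ j b l), Submodule.sum_mem _ fun l _ => ?_, ?_⟩
    · refine Submodule.mem_iSup_of_mem (∑ i, l i) ⟨Pi.single l (r l), (memL _ _ _ _).2
        ⟨(memH0 _ _ _).2 fun l' => ?_, fun l' hl => Pi.single_eq_of_ne ?_ _⟩, ?_⟩
      · by_cases e : l' = l
        · subst e
          rw [Pi.single_eq_same]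
          exact hr1 l'
        · rw [Pi.single_eq_of_ne e]
          exact zero_mem _
      · rintro rfl
        exact hl le_rfl
      · rw [hr2, Pi.single_smul]
        rfl
    · refine ⟨fun l => if l ∈ Fintype.piFinset fun _ : ι => Finset.range (2 * S + 1) then 0
        else (p : ℤ_[p]) ^ (nu (∑ i, l i) - S) • r l, (memH0 _ _ _).2 fun l => ?_, ?_⟩
      · split_ifs
        · exact zero_mem _
        · exact Submodule.smul_mem _ _ (hr1 l)
      · funext l
        rw [LinearMap.lsmul_apply, Pi.smul_apply, Pi.sub_apply, Finset.sum_apply,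
          Finset.sum_pi_single]
        split_ifs with hl
        · rw [smul_zero, sub_self]
        · have hS : S ≤ nu (∑ i, l i) := by
            rw [Fintype.mem_piFinset, not_forall] at hl
            obtain ⟨i, hi⟩ := hl
            rw [Finset.mem_range] at hi
            have := Finset.single_le_sum (f := l) (fun k _ => Nat.zero_le _) (Finset.mem_univ i)
            unfold nu
            omega
          rw [sub_zero, hr2, smul_smul, ← pow_add, Nat.add_sub_cancel' hS]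

end

end Pool.Agent.MP_ea150c_mp.H74
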