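import Mathlib

/-! The strict trivial bound for the Hecke roots of a cusp form of weight two. -/

namespace Pool.Agent.MP_ea150c_mp.H74

open Filter Topology UpperHalfPlane Matrix.SpecialLinearGroup ConjAct
open Function.Periodic (qParam)
open scoped MatrixGroups Modular ModularForm Pointwise

noncomputable section

theorem exists_max (G : ℍ → ℝ) (hc : Continuous G) (Γ : Subgroup SL(2, ℤ)) [Γ.FiniteIndex]
    (hinv : ∀ g ∈ Γ, ∀ τ, G (g • τ) = G τ)
    (h0 : ∀ g : SL(2, ℤ), Tendsto (fun τ => G (g • τ)) atImInfty (𝓝 0)) (z₁ : ℍ) (h1 : 0 < G z₁) :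
    ∃ z₀, ∀ z, G z ≤ G z₀ := by
  have : Fintype (SL(2, ℤ) ⧸ Γ) := Subgroup.fintypeQuotientOfFiniteIndex
  have hs : ∀ g : SL(2, ℤ), Continuous fun τ : ℍ => g • τ := fun g => by
    simp only [ModularGroup.sl_moeb]
    fun_prop
  have h2 : ∀ᶠ τ in atImInfty, ∀ q : SL(2, ℤ) ⧸ Γ, G (q.out⁻¹ • τ) < G z₁ :=
    eventually_all.2 fun q => (h0 q.out⁻¹).eventually (gt_mem_nhds h1)
  obtain ⟨Y, hY⟩ := (atImInfty_mem _).1 h2
  set K : Set ℍ := insert z₁ (⋃ q : SL(2, ℤ) ⧸ Γ,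
    (fun τ : ℍ => q.out⁻¹ • τ) '' ModularGroup.truncatedFundamentalDomain Y) with hK
  have hKc : IsCompact K := (isCompact_iUnion fun q =>
    (ModularGroup.isCompact_truncatedFundamentalDomain Y).image
      (hs _)).insert z₁
  obtain ⟨z₀, -, h3⟩ := hKc.exists_isMaxOn ⟨z₁, Set.mem_insert _ _⟩ hc.continuousOn
  refine ⟨z₀, fun z => ?_⟩
  obtain ⟨g, hg⟩ := ModularGroup.exists_smul_mem_fd z
  obtain ⟨h, hh⟩ := QuotientGroup.mk_out_eq_mul Γ g
  have h4 : G ((g : SL(2, ℤ) ⧸ Γ).out⁻¹ • g • z) = G z := by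
    rw [hh, mul_inv_rev, mul_smul, inv_smul_smul, hinv _ (Γ.inv_mem h.2)]
  rw [← h4]
  rcases le_total (g • z).im Y with h5 | h5
  · exact h3 (Set.mem_insert_of_mem _ (Set.mem_iUnion.2 ⟨_, _, ⟨hg, h5⟩, rfl⟩))
  · exact (hY _ h5 _).le.trans (h3 (Set.mem_insert _ _))

/-- The invariant size of a function of weight two. -/
def sz (h : ℍ → ℂ) (τ : ℍ) : ℝ := ‖h τ‖ * τ.im

theorem sz_nonneg (h : ℍ → ℂ) (τ : ℍ) : 0 ≤ sz h τ := mul_nonneg (norm_nonneg _) τ.im_pos.le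

theorem sz_eq (h : ℍ → ℂ) (τ : ℍ) : sz h τ = √‖petersson 2 h h τ‖ := by
  rw [eq_comm, Real.sqrt_eq_iff_mul_self_eq (norm_nonneg _) (sz_nonneg h τ)]
  simp only [sz, petersson, norm_mul, Complex.norm_conj, norm_pow, Complex.norm_real,
    Real.norm_of_nonneg τ.im_pos.le, zpow_ofNat]
  ring

theorem sz_slash (h : ℍ → ℂ) (g : SL(2, ℤ)) (τ : ℍ) : sz (h ∣[(2 : ℤ)] g) τ = sz h (g • τ) := by
  rw [sz_eq, sz_eq, petersson_slash_SL]

theorem decay {Γ : Subgroup (GL (Fin 2) ℝ)} [Γ.IsArithmetic] (f : CuspForm Γ 2) (g : SL(2, ℤ)) :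
    Tendsto (fun τ => sz f (g • τ)) atImInfty (𝓝 0) := by
  have : ((toConjAct (g : GL (Fin 2) ℝ)⁻¹) • Γ).IsArithmetic := by
    simpa [(show Rat.castHom ℝ = algebraMap ℚ ℝ by rfl), map_inv, map_mapGL]
      using! Subgroup.IsArithmetic.conj Γ (mapGL ℚ g)⁻¹
  have h1 : Tendsto (petersson 2 (⇑f ∣[(2 : ℤ)] g) (⇑f ∣[(2 : ℤ)] g)) atImInfty (𝓝 0) :=
    (CuspFormClass.zero_at_infty <| CuspForm.translate f g).petersson_isZeroAtImInfty_left 2 _
      (ModularForm.translate f g)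
  have h2 := (Real.continuous_sqrt.tendsto _).comp h1.norm
  simp only [norm_zero, Real.sqrt_zero] at h2
  refine h2.congr fun τ => ?_
  rw [← sz_slash, sz_eq]
  rfl

/-- Multiplication by a positive integer. -/
def up (p : ℕ) [NeZero p] (τ : ℍ) : ℍ :=
  ⟨(p : ℂ) * τ, by simpa using mul_pos (Nat.cast_pos.2 (NeZero.pos p)) τ.im_pos⟩

/-- The points below a given point. -/
def dn (p : ℕ) [NeZero p] (j : ℕ) (τ : ℍ) : ℍ :=
  ⟨((τ : ℂ) + j) / p, by simpa using div_pos τ.im_pos (Nat.cast_pos.2 (NeZero.pos p))⟩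

/-- The diagonal matrix. -/
def dq (p : ℕ) [NeZero p] : GL (Fin 2) ℚ :=
  Matrix.GeneralLinearGroup.mkOfDetNeZero !![(p : ℚ), 0; 0, 1] (by simp [NeZero.ne p])

theorem slash_dq (p : ℕ) [NeZero p] (h : ℍ → ℂ) (τ : ℍ) :
    (h ∣[(2 : ℤ)] (dq p).map (Rat.castHom ℝ)) τ = p * h (up p τ) := by
  have h1 : ((dq p).map (Rat.castHom ℝ)).det.val = (p : ℝ) := by
    simp [dq, Matrix.det_fin_two]
  have h2 : 0 < ((dq p).map (Rat.castHom ℝ)).det.val := by
    rw [h1]; exact Nat.cast_pos.2 (NeZero.pos p)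
  have h3 : (dq p).map (Rat.castHom ℝ) • τ = up p τ := by
    ext
    rw [coe_smul_of_det_pos h2]
    simp [num, denom, dq, up]
  rw [ModularForm.slash_apply, h3, σ, if_pos h2, h1]
  simp [denom, dq, mul_comm]

theorem q_up (p : ℕ) [NeZero p] (τ : ℍ) : qParam 1 (up p τ) = qParam 1 τ ^ p := by
  simp only [qParam, up, ← Complex.exp_nat_mul]
  congr 1
  push_cast
  ring

theorem q_dn (p : ℕ) [NeZero p] (j : ℕ) (τ : ℍ) :
    qParam 1 (dn p j τ) = qParam 1 (dn p 0 τ) * Complex.exp (2 * Real.pi * Complex.I / p) ^ j := by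
  simp only [qParam, dn, ← Complex.exp_nat_mul, ← Complex.exp_add]
  congr 1
  push_cast
  ring

theorem q_dn_pow (p : ℕ) [NeZero p] (j : ℕ) (τ : ℍ) : qParam 1 (dn p j τ) ^ p = qParam 1 τ := by
  have hp : (p : ℂ) ≠ 0 := Nat.cast_ne_zero.2 (NeZero.ne p)
  simp only [qParam, dn, ← Complex.exp_nat_mul]
  rw [Complex.exp_eq_exp_iff_exists_int]
  refine ⟨j, ?_⟩
  push_cast
  field_simp

theorem sum_q (p : ℕ) (hp : p.Prime) [NeZero p] (τ : ℍ) (m : ℕ) :
    ∑ j ∈ Finset.range p, qParam 1 (dn p j τ) ^ m = if p ∣ m then p * qParam 1 τ ^ (m / p) else 0 := by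
  split_ifs with h
  · obtain ⟨n, rfl⟩ := h
    simp only [pow_mul, q_dn_pow, Nat.mul_div_cancel_left _ hp.pos]
    simp
  · have h1 := (Complex.isPrimitiveRoot_exp p hp.ne_zero).pow_of_coprime m
      (hp.coprime_iff_not_dvd.2 h).symm
    have h2 := h1.geom_sum_eq_zero hp.one_lt
    have h3 : ∀ j, qParam 1 (dn p j τ) ^ m =
        qParam 1 (dn p 0 τ) ^ m * (Complex.exp (2 * Real.pi * Complex.I / p) ^ m) ^ j := fun j => by
      rw [q_dn p j, mul_pow, ← pow_mul, ← pow_mul, mul_comm j m]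
    rw [Finset.sum_congr rfl fun j _ => h3 j, ← Finset.mul_sum, h2, mul_zero]

theorem hecke (p : ℕ) (hp : p.Prime) [NeZero p] (f : ℍ → ℂ) (a : ℕ → ℂ)
    (hf : ∀ τ : ℍ, HasSum (fun m => a m * qParam 1 τ ^ m) (f τ)) (c d : ℂ)
    (hT : ∀ n, a (p * n) + (if p ∣ n then d * a (n / p) else 0) = c * a n) (τ : ℍ) :
    ∑ j ∈ Finset.range p, f (dn p j τ) = p * (c * f τ - d * f (up p τ)) := by
  have hi : Function.Injective fun n : ℕ => p * n := fun x y h => Nat.eq_of_mul_eq_mul_left hp.pos h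
  have hr : ∀ m, m ∉ Set.range (fun n : ℕ => p * n) → ¬ p ∣ m := fun m hm ⟨n, hn⟩ =>
    hm ⟨n, hn.symm⟩
  have h1 := hasSum_sum (s := Finset.range p) fun j _ => hf (dn p j τ)
  simp only [← Finset.mul_sum, sum_q p hp] at h1
  rw [← hi.hasSum_iff fun m hm => by rw [if_neg (hr m hm), mul_zero]] at h1
  have h2 : HasSum (fun n => (if p ∣ n then d * a (n / p) else 0) * qParam 1 τ ^ n)
      (d * f (up p τ)) := by
    rw [← hi.hasSum_iff fun m hm => by rw [if_neg (hr m hm), zero_mul]]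
    have e : ((fun n => (if p ∣ n then d * a (n / p) else 0) * qParam 1 τ ^ n) ∘ fun n => p * n) =
        fun n => d * (a n * qParam 1 (up p τ) ^ n) := by
      funext n
      simp only [Function.comp, Dvd.intro _ rfl, if_true, Nat.mul_div_cancel_left _ hp.pos, q_up,
        pow_mul, mul_assoc]
    rw [e]
    exact (hf (up p τ)).mul_left d
  refine h1.unique ?_
  have e : ((fun m => a m * if p ∣ m then (p : ℂ) * qParam 1 τ ^ (m / p) else 0) ∘ fun n => p * n) =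
      fun n => (p : ℂ) * (c * (a n * qParam 1 τ ^ n) -
        (if p ∣ n then d * a (n / p) else 0) * qParam 1 τ ^ n) := by
    funext n
    simp only [Function.comp, Dvd.intro _ rfl, if_true, Nat.mul_div_cancel_left _ hp.pos]
    linear_combination (p * qParam 1 τ ^ n) * hT n
  rw [e]
  exact (((hf τ).mul_left c).sub h2).mul_left (p : ℂ)

theorem up_dn (p : ℕ) [NeZero p] (f : ℍ → ℂ) (a : ℕ → ℂ)
    (hf : ∀ τ : ℍ, HasSum (fun m => a m * qParam 1 τ ^ m) (f τ)) (j : ℕ) (τ : ℍ) :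
    f (up p (dn p j τ)) = f τ := by
  have h1 := hf (up p (dn p j τ))
  rw [q_up, q_dn_pow] at h1
  exact h1.unique (hf τ)

theorem im_up (p : ℕ) [NeZero p] (τ : ℍ) : (up p τ).im = p * τ.im := by
  simp [up, ← coe_im]

theorem im_dn (p : ℕ) [NeZero p] (j : ℕ) (τ : ℍ) : (dn p j τ).im = τ.im / p := by
  simp [dn, ← coe_im]

theorem S_up (p : ℕ) [NeZero p] (τ : ℍ) :
    ModularGroup.S • up p τ = dn p 0 (ModularGroup.S • τ) := by
  have hp : (p : ℂ) ≠ 0 := Nat.cast_ne_zero.2 (NeZero.ne p)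
  have := τ.ne_zero
  ext
  simp only [modular_S_smul, up, dn]
  push_cast
  field_simp
  ring

theorem tendsto_up (p : ℕ) (hp : p.Prime) [NeZero p] (τ : ℍ) :
    Tendsto (fun r => (up p)^[r] τ) atTop atImInfty := by
  have h1 : ∀ r, ((up p)^[r] τ).im = (p : ℝ) ^ r * τ.im := fun r => by
    induction r with
    | zero => simp
    | succ r ih => rw [Function.iterate_succ_apply', im_up, ih, pow_succ]; ring
  rw [atImInfty, tendsto_comap_iff]
  simp only [Function.comp_def, h1]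
  exact (tendsto_pow_atTop_atTop_of_one_lt (by exact_mod_cast hp.one_lt)).atTop_mul_const τ.im_pos

/-- A Hecke root of a cusp form of weight two has absolute value less than `p`. -/
theorem root_lt {Γ : Subgroup (GL (Fin 2) ℝ)} [Γ.IsArithmetic] (hΓ : (1 : ℝ) ∈ Γ.strictPeriods)
    (f : CuspForm Γ 2) (hf : f ≠ 0) (p : ℕ) (hp : p.Prime) (α β : ℂ)
    (hT : ∀ n, (qExpansion 1 f).coeff (p * n) +
      (if p ∣ n then α * β * (qExpansion 1 f).coeff (n / p) else 0) =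
        (α + β) * (qExpansion 1 f).coeff n) (hα : ‖α‖ ≤ 1) : ‖β‖ < p := by
  have : NeZero p := ⟨hp.ne_zero⟩
  have hp0 : (0 : ℝ) < p := Nat.cast_pos.2 hp.pos
  have hpc : (p : ℂ) ≠ 0 := Nat.cast_ne_zero.2 hp.ne_zero
  by_contra hβ
  rw [not_lt] at hβ
  have hs := ModularForm.hasSum_qExpansion f one_pos hΓ
  set D := (dq p).map (Rat.castHom ℝ) with hD
  have : (toConjAct D⁻¹ • Γ).IsArithmetic := by
    simpa [hD, map_inv] using Subgroup.IsArithmetic.conj Γ (dq p)⁻¹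
  set F := CuspForm.translate f D with hF
  have hFa : ∀ τ, F τ = p * f (up p τ) := slash_dq p f
  set g : ℍ → ℂ := ⇑f - (α / p) • ⇑F with hg
  have hga : ∀ τ, g τ = f τ - α * f (up p τ) := fun τ => by
    simp only [hg, Pi.sub_apply, Pi.smul_apply, smul_eq_mul, hFa]
    field_simp
  have hsl : ∀ γ : SL(2, ℤ), g ∣[(2 : ℤ)] γ = ⇑f ∣[(2 : ℤ)] γ - (α / p) • ⇑F ∣[(2 : ℤ)] γ :=
    fun γ => by
      rw [hg, sub_eq_add_neg, SlashAction.add_slash, SlashAction.neg_slash,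
        ModularForm.SL_smul_slash, sub_eq_add_neg]
  have hc : Continuous (sz g) :=
    (((ModularFormClass.holo f).continuous.sub
      ((ModularFormClass.holo F).continuous.const_smul _)).norm).mul continuous_im
  have h0 : ∀ γ : SL(2, ℤ), Tendsto (fun τ => sz g (γ • τ)) atImInfty (𝓝 0) := fun γ => by
    have h1 := (decay f γ).add ((decay F γ).const_mul ‖α / p‖)
    rw [mul_zero, add_zero] at h1
    refine squeeze_zero (fun τ => sz_nonneg _ _) (fun τ => ?_) h1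
    rw [sz, sz, sz, ← mul_assoc, ← add_mul, ← norm_mul]
    exact mul_le_mul_of_nonneg_right (norm_sub_le _ _) (im_pos _).le
  obtain ⟨z₁, hz₁⟩ : ∃ z₁, 0 < sz g z₁ := by
    by_contra h
    push Not at h
    have h1 : ∀ τ, ‖f τ‖ ≤ ‖f (up p τ)‖ := fun τ => by
      have h2 : ‖g τ‖ = 0 := (mul_eq_zero.1 ((h τ).antisymm (sz_nonneg _ _))).resolve_right
        τ.im_ne_zero
      rw [norm_eq_zero, hga, sub_eq_zero] at h2
      rw [h2, norm_mul]
      exact mul_le_of_le_one_left (norm_nonneg _) hα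
    refine hf (CuspForm.ext fun τ => ?_)
    have h2 : ∀ r, ‖f τ‖ ≤ ‖f ((up p)^[r] τ)‖ := fun r => by
      induction r with
      | zero => simp
      | succ r ih => rw [Function.iterate_succ_apply']; exact ih.trans (h1 _)
    have h3 := (Tendsto.comp (CuspFormClass.zero_at_infty f) (tendsto_up p hp τ)).norm
    rw [norm_zero] at h3
    exact norm_le_zero_iff.1 (ge_of_tendsto' h3 h2)
  obtain ⟨z₀, hz₀⟩ := exists_max (sz g) hc ((Γ ⊓ toConjAct D⁻¹ • Γ).comap (mapGL ℝ))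
    (fun γ hγ τ => by
      have e1 : ⇑f ∣[(2 : ℤ)] γ = f := SlashInvariantFormClass.slash_action_eq f _ hγ.1
      have e2 : ⇑F ∣[(2 : ℤ)] γ = F := SlashInvariantFormClass.slash_action_eq F _ hγ.2
      rw [← sz_slash, hsl, e1, e2]) h0 z₁ hz₁
  have hstep : ∀ τ, sz g z₀ ≤ sz g τ → sz g z₀ ≤ sz g (dn p 0 τ) := fun τ hτ => by
    have h1 : ∑ j ∈ Finset.range p, g (dn p j τ) = p * β * g τ := by
      simp only [hga, Finset.sum_sub_distrib, up_dn p f _ hs, hecke p hp f _ hs _ _ hT τ]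
      simp only [Finset.sum_const, Finset.card_range, nsmul_eq_mul]
      ring
    have h2 : p * sz g τ ≤ ∑ j ∈ Finset.range p, sz g (dn p j τ) := by
      simp only [sz, im_dn, ← Finset.sum_mul]
      have h3 := norm_sum_le (Finset.range p) fun j => g (dn p j τ)
      rw [h1, norm_mul, norm_mul, Complex.norm_natCast] at h3
      have h4 : (p : ℝ) * p * ‖g τ‖ ≤ p * ‖β‖ * ‖g τ‖ := by gcongr
      calc (p : ℝ) * (‖g τ‖ * τ.im) = p * p * ‖g τ‖ * (τ.im / p) := by field_simp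
        _ ≤ _ := mul_le_mul_of_nonneg_right (h4.trans h3) (div_pos τ.im_pos hp0).le
    obtain ⟨n, rfl⟩ : ∃ n, p = n + 1 := ⟨p - 1, by have := hp.pos; omega⟩
    rw [Finset.sum_range_succ'] at h2
    have h3 := Finset.sum_le_card_nsmul (Finset.range n) (fun j => sz g (dn (n + 1) (j + 1) τ))
      (sz g z₀) fun j _ => hz₀ _
    rw [Finset.card_range, nsmul_eq_mul] at h3
    have h4 : ((n + 1 : ℕ) : ℝ) * sz g z₀ ≤ ((n + 1 : ℕ) : ℝ) * sz g τ := by gcongr
    push_cast at h2 h4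
    linarith
  have h1 : ∀ r, sz g z₀ ≤ sz g (ModularGroup.S • (up p)^[r] (ModularGroup.S⁻¹ • z₀)) := fun r => by
    induction r with
    | zero => simp [-ModularGroup.sl_moeb]
    | succ r ih => rw [Function.iterate_succ_apply', S_up]; exact hstep _ ih
  have h2 := ge_of_tendsto' ((h0 ModularGroup.S).comp (tendsto_up p hp _)) h1
  linarith [hz₀ z₁]

end

end Pool.Agent.MP_ea150c_mp.H74
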