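import Pool.Agent.MP_ea150c_mp.H74.Unif
import Pool.Agent.MP_ea150c_mp.H74.Hecke

/-! Finitely many powers of one prime determine that the weight is at least three. -/

namespace Pool.Agent.MP_ea150c_mp.H74

open Polynomial H20 H86

noncomputable section

theorem approx_root (p : ℕ) [hp : Fact p.Prime] (h7 : 7 ≤ p) (m W : ℕ) (T : ℕ → ℤ) (u : ℤ_[p])
    (μ : ℚ[X]) (k₀ : ℕ) (hu : IsUnit u) (hμ : μ ≠ 0) (hm : μ.natDegree ≤ m)
    (hrec : ∀ k, k₀ ≤ k → act μ (fun k => (T k : ℚ)) k = 0)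
    (hT : ∀ k, 1 ≤ k → (p : ℤ_[p]) ^ k ∣ (T k : ℤ_[p]) - u ^ k)
    (hW : ∀ k, 1 ≤ k → |T k| ≤ (p : ℤ) ^ (W * k))
    (hc : ∀ γ : Kp p, aeval γ (minpoly ℚ (u : ℚ_[p])) = 0 →
      γ ≠ algebraMap ℚ_[p] (Kp p) u → ‖γ‖ < (p : ℝ)⁻¹)
    (a d : ℤ) (ha : |a| ≤ 2 * p) (hd : |d| ≤ p)
    (h : (p : ℤ_[p]) ^ ((2 * W + 2) * m + 1) ∣ u ^ 2 - a * u + d) : u ^ 2 - a * u + d = 0 := by
  classical
  have hp1 : (1 : ℝ) < p := by exact_mod_cast hp.out.one_lt
  have hp7 : (7 : ℝ) ≤ p := by exact_mod_cast h7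
  have hρ0 : (0 : ℝ) ≤ (p : ℝ)⁻¹ := by positivity
  set v : ℚ_[p] := (u : ℚ_[p]) with hv
  have hv1 : ‖v‖ = 1 := PadicInt.isUnit_iff.1 hu
  have hρ : (p : ℝ)⁻¹ < ‖v‖ := by rw [hv1]; exact inv_lt_one_of_one_lt₀ hp1
  let k₁ := max k₀ 1
  let er : ℕ → ℚ_[p] := fun k => (T k : ℚ_[p]) - v ^ k
  have her : Bd (p : ℝ)⁻¹ k₁ er := ⟨1, fun k hk => by
    have h1 := hT k ((le_max_right _ _).trans hk)
    rw [← Ideal.mem_span_singleton, ← PadicInt.norm_le_pow_iff_mem_span_pow] at h1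
    rw [one_mul, inv_pow, ← zpow_natCast, ← zpow_neg]
    simpa [er, hv, PadicInt.norm_def] using h1⟩
  have hTx : (fun k => (T k : ℚ_[p])) = (fun k => v ^ k) + er := by funext k; simp [er]
  have hex : ∀ (ν : ℚ_[p][X]) k, act ν (fun k => v ^ k) k = ν.eval v * v ^ k := fun ν k => by
    simpa using act_exp ν ({0} : Finset ℕ) (fun _ => 1) (fun _ => v) k
  have hrecF : ∀ (F : Type) [Field F] [CharZero F] (k : ℕ), k₁ ≤ k →
      act (μ.map (algebraMap ℚ F)) (fun k => (T k : F)) k = 0 := by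
    intro F _ _ k hk
    have h1 := act_map (algebraMap ℚ F) (algebraMap ℚ F).injective μ (fun k => (T k : ℚ)) k
    rw [hrec k ((le_max_left _ _).trans hk), map_zero] at h1
    simpa using h1.symm
  have hroot : aeval v μ = 0 := by
    obtain ⟨D, hD⟩ := bd_act her (μ.map (algebraMap ℚ ℚ_[p]))
    rw [← eval_map_algebraMap]
    refine bd_one (k₀ := k₁) hρ0 hρ ⟨D, fun k hk => ?_⟩
    have h1 := hrecF ℚ_[p] k hk
    rw [hTx, act_add, Pi.add_apply, hex] at h1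
    beta_reduce
    rw [eq_neg_of_add_eq_zero_left h1, norm_neg]
    exact hD k hk
  have hint : IsIntegral ℚ v := (show IsAlgebraic ℚ v from ⟨μ, hμ, hroot⟩).isIntegral
  have hdeg : (minpoly ℚ v).natDegree ≤ m :=
    (natDegree_le_of_dvd (minpoly.dvd ℚ v hroot) hμ).trans hm
  have : Fact (Irreducible (minpoly ℚ v)) := ⟨minpoly.irreducible hint⟩
  let L := AdjoinRoot (minpoly ℚ v)
  have : CharZero L := algebraRat.charZero L
  have : FiniteDimensional ℚ L := (AdjoinRoot.powerBasis (minpoly.ne_zero hint)).finite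
  have hfr : Module.finrank ℚ L ≤ m := by
    rw [(AdjoinRoot.powerBasis (minpoly.ne_zero hint)).finrank, AdjoinRoot.powerBasis_dim]
    exact hdeg
  let θ : L := AdjoinRoot.root _
  have hθ : aeval θ (minpoly ℚ v) = 0 := AdjoinRoot.eval₂_root _
  have hμL : μ.map (algebraMap ℚ L) ≠ 0 := Polynomial.map_ne_zero hμ
  obtain ⟨ν, hν, hnd⟩ := exists_eq_pow_rootMultiplicity_mul_and_not_dvd _ hμL θ
  generalize rootMultiplicity θ (μ.map (algebraMap ℚ L)) = e at hν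
  have hν0 : ν.eval θ ≠ 0 := fun h => hnd (dvd_iff_isRoot.2 h)
  let t : ℕ → L := act ν fun k => (T k : L)
  let f : L →+* ℚ_[p] := AdjoinRoot.lift (algebraMap ℚ ℚ_[p]) v (minpoly.aeval ℚ v)
  have hf : f θ = v := AdjoinRoot.lift_root _
  have hθ0 : θ ≠ 0 := fun h0 => by
    rw [h0, map_zero] at hf
    rw [← hf, norm_zero] at hv1
    exact zero_ne_one hv1
  have key : ∀ k, k₁ ≤ k → t k = ν.eval θ * θ ^ k := by
    have hfac : μ.map (algebraMap ℚ ℚ_[p]) = (X - C v) ^ e * ν.map f := by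
      have h1 := congrArg (Polynomial.map f) hν
      rw [Polynomial.map_map, Polynomial.map_mul, Polynomial.map_pow, Polynomial.map_sub, map_X,
        map_C, hf] at h1
      rw [← h1]
      congr 1
      exact Subsingleton.elim _ _
    have hz := bd_decay (k₀ := k₁) hρ0 hρ (e + 1) (act (ν.map f) er) (bd_act her _) fun k hk => by
      have h1 : er = (fun k => (T k : ℚ_[p])) - fun k => v ^ k := by funext k; simp [er]
      rw [← act_mul, pow_succ', mul_assoc, ← hfac, h1, act_sub, Pi.sub_apply, act_mul,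
        act_zero _ _ k₁ (hrecF ℚ_[p]) k hk, hex]
      simp
    intro k hk
    refine f.injective ?_
    have h1 := act_map f f.injective ν (fun k => (T k : L)) k
    simp only [map_intCast] at h1
    rw [h1, hTx, act_add, Pi.add_apply, hz k hk, add_zero, hex, map_mul, map_pow, ← eval₂_at_apply,
      hf, eval_map]
  have hZ : IsIntegral ℤ θ := by
    refine isIntegral_of_smul_mem_submodule
      (Submodule.span ℤ {x | ∃ k, k₁ ≤ k ∧ x = ν.eval θ * θ ^ k}) (fun h0 => ?_) ?_ θ fun x hx => ?_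
    · exact mul_ne_zero hν0 (pow_ne_zero k₁ hθ0)
        ((Submodule.span_eq_bot.1 h0) _ ⟨k₁, le_rfl, rfl⟩)
    · refine Submodule.FG.of_le (Submodule.fg_span (ν.support.image ν.coeff).finite_toSet)
        (Submodule.span_le.2 ?_)
      rintro _ ⟨k, hk, rfl⟩
      rw [← key k hk]
      simp only [t, act_apply]
      refine sum_mem fun j hj => ?_
      rw [mul_comm, ← zsmul_eq_mul]
      exact Submodule.smul_mem _ _ (Submodule.subset_span (Finset.mem_coe.2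
        (Finset.mem_image_of_mem _ hj)))
    · refine Submodule.span_induction (fun y hy => ?_) (by simp) (fun y z _ _ hy hz => ?_)
        (fun c y _ hy => ?_) hx
      · obtain ⟨k, hk, rfl⟩ := hy
        exact Submodule.subset_span ⟨k + 1, by omega, by rw [smul_eq_mul]; ring⟩
      · rw [smul_add]; exact add_mem hy hz
      · rw [smul_comm]; exact Submodule.smul_mem _ _ hy
  have hC : ∀ φ : L →+* ℂ, ‖φ θ‖ ≤ (p : ℝ) ^ W := fun φ => by
    by_contra hlt
    rw [not_le] at hlt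
    have h1 : Bd ((p : ℝ) ^ W) k₁ fun k => (T k : ℂ) := ⟨1, fun k hk => by
      rw [one_mul, Complex.norm_intCast, ← pow_mul]
      exact_mod_cast hW k ((le_max_right _ _).trans hk)⟩
    refine hν0 ((map_eq_zero φ).1 (bd_one (by positivity) hlt
      (bd_congr (bd_act h1 (ν.map φ)) fun k hk => ?_)))
    have h2 := act_map φ φ.injective ν (fun k => (T k : L)) k
    simp only [map_intCast] at h2
    rw [← h2, ← map_pow, ← map_mul, ← key k hk]
  set x : L := θ ^ 2 - a * θ + d with hx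
  have hxZ : IsIntegral ℤ x :=
    ((hZ.pow 2).sub ((isIntegral_algebraMap (x := a)).mul hZ)).add (isIntegral_algebraMap (x := d))
  obtain ⟨n, hn⟩ := IsIntegrallyClosed.isIntegral_iff.1 (Algebra.isIntegral_norm ℚ hxZ)
  have hn1 : |n| ≤ (p : ℤ) ^ ((2 * W + 2) * m) := by
    have h1 := Algebra.norm_eq_prod_embeddings ℚ ℂ x
    rw [← hn] at h1
    have h2 : ∀ φ : L →ₐ[ℚ] ℂ, ‖φ x‖ ≤ (p : ℝ) ^ (2 * W + 2) := fun φ => by
      have h3 : ‖φ θ‖ ≤ (p : ℝ) ^ W := hC φ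
      have h4 : (1 : ℝ) ≤ (p : ℝ) ^ W := one_le_pow₀ hp1.le
      have h5 : ‖(a : ℂ)‖ ≤ 2 * p := by rw [Complex.norm_intCast]; exact_mod_cast ha
      have h6 : ‖(d : ℂ)‖ ≤ p := by rw [Complex.norm_intCast]; exact_mod_cast hd
      have h8 : ‖φ x‖ ≤ ((p : ℝ) ^ W) ^ 2 + 2 * p * (p : ℝ) ^ W + p := by
        rw [hx, map_add, map_sub, map_mul, map_pow, map_intCast, map_intCast]
        refine (norm_add_le _ _).trans (add_le_add ((norm_sub_le _ _).trans (add_le_add ?_ ?_)) h6)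
        · rw [norm_pow]; gcongr
        · rw [norm_mul]; gcongr
      refine h8.trans ?_
      rw [pow_add, mul_comm 2 W, pow_mul]
      generalize (p : ℝ) ^ W = y at h4
      nlinarith [mul_le_mul_of_nonneg_left h4 (by linarith : 0 ≤ y), mul_nonneg
        (by linarith : 0 ≤ (p : ℝ) - 7) (by linarith : 0 ≤ (p : ℝ)), sq_nonneg y,
        mul_nonneg (mul_nonneg (by linarith : 0 ≤ (p : ℝ) - 7) (by linarith : 0 ≤ (p : ℝ)))
          (sq_nonneg y), mul_nonneg (by linarith : 0 ≤ (p : ℝ))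
          (by nlinarith : 0 ≤ y ^ 2 - y), mul_nonneg (by linarith : 0 ≤ (p : ℝ))
          (by nlinarith : 0 ≤ y ^ 2 - 1), mul_nonneg (by linarith : 0 ≤ (p : ℝ) - 1) (sq_nonneg y)]
    have h3 : ‖(n : ℂ)‖ ≤ (p : ℝ) ^ ((2 * W + 2) * m) := by
      have h4 : (n : ℂ) = ∏ φ : L →ₐ[ℚ] ℂ, φ x := by simpa using h1
      rw [h4, norm_prod]
      refine (Finset.prod_le_prod (fun _ _ => norm_nonneg _) fun φ _ => h2 φ).trans ?_
      rw [Finset.prod_const, Finset.card_univ, AlgHom.card, ← pow_mul]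
      exact pow_le_pow_right₀ hp1.le (Nat.mul_le_mul_left _ hfr)
    rw [Complex.norm_intCast] at h3
    exact_mod_cast h3
  have hfx : f x = ((u ^ 2 - a * u + d : ℤ_[p]) : ℚ_[p]) := by
    rw [hx, map_add, map_sub, map_mul, map_pow, map_intCast, map_intCast, hf]
    simp [hv]
  have hn2 : (p : ℤ) ^ ((2 * W + 2) * m + 1) ∣ n := by
    have h1 := Algebra.norm_eq_prod_embeddings ℚ (Kp p) x
    rw [← hn] at h1
    have h4 : algebraMap ℚ_[p] (Kp p) (n : ℚ_[p]) = ∏ φ : L →ₐ[ℚ] Kp p, φ x := by simpa using h1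
    let φ₀ : L →ₐ[ℚ] Kp p := ((algebraMap ℚ_[p] (Kp p)).comp f).toRatAlgHom
    have h2 : ∀ φ : L →ₐ[ℚ] Kp p, ‖φ x‖ ≤ 1 := fun φ => by
      have h3 : ‖φ θ‖ ≤ 1 := by
        by_cases h5 : φ θ = algebraMap ℚ_[p] (Kp p) v
        · rw [h5, PadicAlgCl.norm_extends, hv1]
        · refine ((hc _ ?_ h5).trans (inv_lt_one_of_one_lt₀ hp1)).le
          rw [aeval_algHom_apply, hθ, map_zero]
      rw [hx, map_add, map_sub, map_mul, map_pow, map_intCast, map_intCast]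
      refine (H19.hb (Kp p) zero_le_one).add_mem ((H19.hb (Kp p) zero_le_one).sub_mem ?_ ?_)
        (IsUltrametricDist.norm_intCast_le_one _ _)
      · change ‖_‖ ≤ 1
        rw [norm_pow]
        exact pow_le_one₀ (norm_nonneg _) h3
      · change ‖_‖ ≤ 1
        rw [norm_mul]
        exact mul_le_one₀ (IsUltrametricDist.norm_intCast_le_one _ _) (norm_nonneg _) h3
    rw [← Padic.norm_int_le_pow_iff_dvd, ← PadicAlgCl.norm_extends p, h4,
      ← Finset.mul_prod_erase _ _ (Finset.mem_univ φ₀), norm_mul, norm_prod]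
    refine (mul_le_of_le_one_right (norm_nonneg _)
      (Finset.prod_le_one (fun _ _ => norm_nonneg _) fun φ _ => h2 φ)).trans ?_
    change ‖algebraMap ℚ_[p] (Kp p) (f x)‖ ≤ _
    rw [PadicAlgCl.norm_extends, hfx]
    exact (PadicInt.norm_le_pow_iff_mem_span_pow _ _).2 (Ideal.mem_span_singleton.2 h)
  have hn0 : n = 0 := Int.eq_zero_of_abs_lt_dvd hn2 (hn1.trans_lt
    (pow_lt_pow_right₀ (by exact_mod_cast hp.out.one_lt) (Nat.lt_succ_self _)))
  rw [hn0, map_zero, eq_comm, Algebra.norm_eq_zero_iff] at hn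
  rw [hn, map_zero] at hfx
  exact PadicInt.coe_eq_zero.1 hfx.symm

theorem quad_irr' (a d : ℤ) (h : ∀ r : ℤ, r ^ 2 - a * r + d ≠ 0) :
    Irreducible (X ^ 2 - C (a : ℚ) * X + C (d : ℚ)) := by
  have hm : (X ^ 2 - C a * X + C d : ℤ[X]).Monic := by monicity!
  have hn : (X ^ 2 - C (a : ℚ) * X + C (d : ℚ)).natDegree = 2 := by compute_degree!
  refine irreducible_of_degree_le_three_of_not_isRoot (by rw [hn]; simp) fun x hx => ?_
  have hx' : x ^ 2 - a * x + d = 0 := by simpa using hx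
  obtain ⟨r, hr⟩ := IsIntegrallyClosed.isIntegral_iff.1 (show IsIntegral ℤ x from
    ⟨_, hm, by rw [← aeval_def]; simpa using hx'⟩)
  obtain rfl : (r : ℚ) = x := hr
  exact h r (by exact_mod_cast hx')

theorem no_root (p : ℕ) [Fact p.Prime] (u : ℤ_[p]) (hu : IsUnit u)
    (hc : ∀ γ : Kp p, aeval γ (minpoly ℚ (u : ℚ_[p])) = 0 →
      γ ≠ algebraMap ℚ_[p] (Kp p) u → ‖γ‖ < (p : ℝ)⁻¹) (a d : ℤ) (hd : |d| = p)
    (hi : Irreducible (X ^ 2 - C (a : ℚ) * X + C (d : ℚ))) : u ^ 2 - a * u + d ≠ 0 := by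
  intro hq
  have hp1 : (1 : ℝ) < p := by exact_mod_cast (Fact.out : p.Prime).one_lt
  have hub : u * (a - u) = d := by linear_combination -hq
  have hq' : (u : ℚ_[p]) ^ 2 - a * u + d = 0 := by
    have := congrArg (fun x : ℤ_[p] => (x : ℚ_[p])) hq
    simpa using this
  have hm : X ^ 2 - C (a : ℚ) * X + C (d : ℚ) = minpoly ℚ (u : ℚ_[p]) :=
    minpoly.eq_of_irreducible_of_monic hi (by simpa using hq') (by monicity!)
  have hn : ‖u‖ = 1 := PadicInt.isUnit_iff.1 hu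
  have hb1 : ‖(a : ℤ_[p]) - u‖ = (p : ℝ)⁻¹ := by
    have h1 : ‖(d : ℤ_[p])‖ = (p : ℝ)⁻¹ := by
      rcases (abs_eq (by positivity)).1 hd with h | h <;> simp [h]
    rw [← h1, ← hub, norm_mul, hn, one_mul]
  have e1 := hc (algebraMap ℚ_[p] (PadicAlgCl p) ((a - u : ℤ_[p]) : ℚ_[p])) (by
    rw [aeval_algebraMap_apply, ← hm, map_eq_zero]
    simp only [map_add, map_sub, map_mul, map_pow, aeval_X, map_intCast]
    push_cast
    linear_combination hq') fun h => by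
      have h2 : ((a - u : ℤ_[p]) : ℚ_[p]) = u := (algebraMap ℚ_[p] (PadicAlgCl p)).injective h
      rw [Subtype.ext h2, hn] at hb1
      exact (inv_lt_one_of_one_lt₀ hp1).ne' hb1
  rw [PadicAlgCl.norm_extends p] at e1
  exact e1.ne hb1

variable {V E : Type} [Fintype V] [DecidableEq V] [Fintype E] [DecidableEq E] (s t : E → V)

theorem fin_quad (h3 : 3 ≤ Fintype.card V) (hc : Conn s t Finset.univ)
    (h4 : ∀ v, deg s t v ≤ 4) (hP : Primitive s t) : ∃ J : ℕ, 2 ≤ J ∧ ∀ (p : ℕ) [Fact p.Prime],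
    7 ≤ p → ∀ (S : ℕ → ℤ) (d : ℤ), S 1 ^ 2 - S 2 = 2 * d →
    (∀ j, 1 ≤ j → j + 2 ≤ J → S (j + 2) = S 1 * S (j + 1) - d * S j) →
    (|d| = 1 ∨ (|d| = p ∧ |S 1| ≤ 2 * p ∧ ∀ r : ℤ, r ^ 2 - S 1 * r + d ≠ 0)) →
    ¬ ∀ j, 1 ≤ j → j ≤ J → (p : ℤ) ^ j ∣ c2 s t (GaloisField p j) + S j := by
  have hG := sQ V E s t h3 hc h4 hP
  obtain ⟨m, hm⟩ := rec_c2 s t hG
  obtain ⟨n, hn⟩ : ∃ n, n = (2 * Fintype.card E + 2) * m + 1 := ⟨_, rfl⟩
  refine ⟨n + 2, by omega, fun p hp h7 S d hd hr hd' h => ?_⟩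
  let _ := fun k => Fintype.ofFinite (GaloisField p k)
  obtain ⟨u, hu, -, h1, h2⟩ := dichotomy s t h3 hc h4 hP p h7
  have h5 : ∀ j, 1 ≤ j → j ≤ n + 2 → (p : ℤ_[p]) ^ j ∣ u ^ j - S j := fun j hj hj' => by
    have e1 := (PadicInt.pow_p_dvd_int_iff j _).2 (h j hj hj')
    have e2 := (h1 j hj _ (card_gf p j hj)).sub e1
    push_cast at e2
    rwa [add_sub_add_left_eq_sub] at e2
  have e1 := h5 1 le_rfl (by omega)
  have e2 := h5 2 one_le_two (by omega)
  rw [pow_one, pow_one] at e1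
  have hd2 : ((S 1 : ℤ_[p])) ^ 2 - S 2 = 2 * d := by exact_mod_cast hd
  have h7' : (7 : ℤ) ≤ p := by exact_mod_cast h7
  rcases hd' with hd1 | ⟨hd1, ha, hi⟩
  · have e3 : (p : ℤ_[p]) ^ 1 ∣ ((2 * d : ℤ) : ℤ_[p]) := by
      have := ((dvd_pow_self _ two_ne_zero).trans e2).sub (e1.mul_right (u + S 1))
      rw [pow_one]
      refine this.trans (dvd_of_eq ?_)
      push_cast
      linear_combination hd2
    have e4 := (PadicInt.pow_p_dvd_int_iff 1 _).1 e3
    have := Int.le_of_dvd (by rw [abs_mul, hd1]; norm_num) ((dvd_abs _ _).2 e4)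
    rw [abs_mul, hd1, pow_one] at this
    norm_num at this
    omega
  rcases hu with hu | rfl
  · obtain ⟨μ, k₀, m1, m2, m3⟩ := hm ⟨p, hp.out, h7⟩
    refine no_root p u hu h2 (S 1) d hd1 (quad_irr' _ _ hi) (approx_root p h7 m (Fintype.card E)
      (fun k => -c2 s t (GaloisField p k)) u μ k₀ hu m1 m2 m3 (fun k hk => ?_) (fun k hk => ?_) h2
      (S 1) d ha hd1.le ?_)
    · rw [← dvd_neg]
      refine (h1 k hk _ (card_gf p k hk)).trans (dvd_of_eq ?_)
      push_cast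
      ring
    · have e3 := (Nat.div_le_self _ (Nat.card (GaloisField p k) ^ 2)).trans
        (xg_le s t (GaloisField p k))
      rw [card_gf p k hk, ← pow_mul, mul_comm] at e3
      rw [abs_neg, c2, Nat.abs_cast]
      exact_mod_cast e3
    · rw [← hn]
      have e3 := (pow_dvd_pow _ (by omega : n ≤ n + 2)).trans (h5 (n + 2) (by omega) le_rfl)
      have e4 := (pow_dvd_pow _ (by omega : n ≤ n + 1)).trans (h5 (n + 1) (by omega) (by omega))
      have e5 := (e3.sub (e4.mul_left (S 1))).add ((h5 n (by omega) (by omega)).mul_left d)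
      rw [hr n (by omega) le_rfl] at e5
      push_cast at e5
      refine (hu.pow n).dvd_mul_left.1 (e5.trans (dvd_of_eq ?_))
      ring
  · have e3 : (p : ℤ_[p]) ^ 2 ∣ ((2 * d : ℤ) : ℤ_[p]) := by
      have := e2.add (pow_dvd_pow_of_dvd e1 2)
      refine this.trans (dvd_of_eq ?_)
      push_cast
      linear_combination hd2
    have e4 := (PadicInt.pow_p_dvd_int_iff 2 _).1 e3
    have := Int.le_of_dvd (by rw [abs_mul, hd1]; positivity) ((dvd_abs _ _).2 e4)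
    rw [abs_mul, hd1] at this
    norm_num at this
    nlinarith

theorem one_prime (h3 : 3 ≤ Fintype.card V) (hc : Conn s t Finset.univ)
    (h4 : ∀ v, deg s t v ≤ 4) (hP : Primitive s t) : ∃ J : ℕ, ∀ (N : ℕ) [NeZero N] (k : ℤ)
    (f : CuspForm (CongruenceSubgroup.Gamma1 N) k) (χ : DirichletCharacter ℂ N) (a : ℕ → ℂ),
    (∀ n, a n = (UpperHalfPlane.qExpansion 1 f).coeff n) → a 1 = 1 →
    ∀ p : ℕ, p.Prime → 7 ≤ p → ¬ p ∣ N →
    (∀ n, a (p * n) + (if p ∣ n then χ p * (p : ℂ) ^ (k - 1) * a (n / p) else 0) = a p * a n) →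
    ∀ α β : ℂ, α + β = a p → α * β = χ p * (p : ℂ) ^ (k - 1) →
    (∀ j, 1 ≤ j → j ≤ J → ∀ (F : Type) [Field F] [Fintype F], Fintype.card F = p ^ j →
      ∃ z : ℤ, (c2 s t F : ℂ) + (α ^ j + β ^ j) = (p : ℂ) ^ j * z) → 3 ≤ k := by
  obtain ⟨J, hJ, H⟩ := fin_quad s t h3 hc h4 hP
  refine ⟨J, fun N _ k f χ a ha h1 p hp h7 hN hT α β hs hm h => ?_⟩
  by_contra hk
  have : Fact p.Prime := ⟨hp⟩
  let _ := fun k => Fintype.ofFinite (GaloisField p k)
  have h5 : ∀ j, ∃ S : ℤ, 1 ≤ j → j ≤ J → (S : ℂ) = α ^ j + β ^ j ∧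
      (p : ℤ) ^ j ∣ c2 s t (GaloisField p j) + S := fun j => by
    by_cases hj : 1 ≤ j ∧ j ≤ J
    · obtain ⟨z, hz⟩ := h j hj.1 hj.2 _ (card_gf p j hj.1)
      exact ⟨p ^ j * z - c2 s t (GaloisField p j), fun _ _ =>
        ⟨by push_cast; linear_combination -hz, ⟨z, by ring⟩⟩⟩
    · exact ⟨0, fun a b => absurd ⟨a, b⟩ hj⟩
  choose S hS using h5
  have hS1 : (S 1 : ℂ) = α + β := by simpa using (hS 1 le_rfl (by omega)).1
  have hχ : ‖χ p‖ = 1 := by
    have h6 : IsUnit (p : ZMod N) := (ZMod.isUnit_iff_coprime p N).2 (hp.coprime_iff_not_dvd.2 hN)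
    exact χ.unit_norm_eq_one h6.unit
  have he : ((S 1 ^ 2 - S 2 : ℤ) : ℂ) = 2 * (α * β) := by
    push_cast
    rw [hS1, (hS 2 one_le_two hJ).1]
    ring
  have hn : ((|S 1 ^ 2 - S 2| : ℤ) : ℝ) = 2 * (p : ℝ) ^ (k - 1) := by
    rw [Int.cast_abs, ← Complex.norm_intCast, he, hm]
    simp [hχ]
  have hp1 : (7 : ℝ) ≤ p := by exact_mod_cast h7
  obtain ⟨d, hd, hd'⟩ : ∃ d : ℤ, S 1 ^ 2 - S 2 = 2 * d ∧ (|d| = 1 ∨ (|d| = p ∧ k = 2)) := by
    rcases lt_trichotomy k 1 with h6 | rfl | h6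
    · have h7 : (p : ℝ) ^ (k - 1) ≤ (p : ℝ) ^ (-1 : ℤ) := zpow_le_zpow_right₀ (by linarith) (by omega)
      have h8 : (0 : ℝ) < (p : ℝ) ^ (k - 1) := by positivity
      have h9 : (p : ℝ) ^ (-1 : ℤ) < 1 / 2 := by
        rw [zpow_neg_one, one_div]
        exact inv_strictAnti₀ two_pos (by linarith)
      have h10 : (0 : ℤ) < |S 1 ^ 2 - S 2| := Int.cast_pos.1 (by linarith : (0 : ℝ) < _)
      have h11 : |S 1 ^ 2 - S 2| < (1 : ℤ) :=
        Int.cast_lt.1 (by rw [hn]; push_cast; linarith : (_ : ℝ) < ((1 : ℤ) : ℝ))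
      omega
    · rw [sub_self, zpow_zero, mul_one] at hn
      have h7 : |S 1 ^ 2 - S 2| = 2 := by exact_mod_cast hn
      rcases abs_eq (by norm_num) |>.1 h7 with h | h
      · exact ⟨1, by omega, Or.inl rfl⟩
      · exact ⟨-1, by omega, Or.inl rfl⟩
    · obtain rfl : k = 2 := by omega
      rw [show (2 : ℤ) - 1 = 1 by norm_num, zpow_one] at hn
      have h7 : |S 1 ^ 2 - S 2| = 2 * p := by exact_mod_cast hn
      rcases abs_eq (by positivity) |>.1 h7 with h | h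
      · exact ⟨p, by omega, Or.inr ⟨by simp, rfl⟩⟩
      · exact ⟨-p, by omega, Or.inr ⟨by simp, rfl⟩⟩
  have hαβ : α * β = d := by
    rw [hd] at he
    push_cast at he
    linear_combination (-1 / 2 : ℂ) * he
  refine H p h7 S d hd (fun j hj hj' => ?_) (hd'.imp id fun ⟨h6, h8⟩ => ?_)
    fun j hj hj' => (hS j hj hj').2
  · have : (S (j + 2) : ℂ) = S 1 * S (j + 1) - d * S j := by
      rw [hS1, (hS _ (by omega) hj').1, (hS (j + 1) (by omega) (by omega)).1,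
        (hS j hj (by omega)).1, ← hαβ]
      ring
    exact_mod_cast this
  subst h8
  have hf : f ≠ 0 := fun h0 => by
    rw [ha, h0] at h1
    simp [UpperHalfPlane.qExpansion_zero] at h1
  have hnm : ‖α‖ * ‖β‖ = p := by
    rw [← norm_mul, hαβ, Complex.norm_intCast]
    exact_mod_cast h6
  have hlt : ∀ x y : ℂ, x + y = a p → x * y = α * β → 1 < ‖x‖ := fun x y e1 e2 => by
    by_contra hx
    rw [not_lt] at hx
    have e3 := root_lt (by simp) f hf p hp x y (fun n => by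
      rw [e1, e2, hm, ← ha, ← ha, ← ha]; exact hT n) hx
    have e4 : ‖x‖ * ‖y‖ = p := by rw [← norm_mul, e2, norm_mul, hnm]
    nlinarith [norm_nonneg y]
  have hα := hlt α β hs rfl
  have hβ := hlt β α (by rw [add_comm, hs]) (mul_comm _ _)
  have hα' : ‖α‖ < p := by nlinarith
  have hβ' : ‖β‖ < p := by nlinarith
  refine ⟨h6, ?_, fun r hr => ?_⟩
  · have e1 : ‖(S 1 : ℂ)‖ ≤ 2 * p := by
      rw [hS1]
      linarith [norm_add_le α β]
    rw [Complex.norm_intCast] at e1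
    exact_mod_cast e1
  · have e1 : ((r : ℂ) - α) * (r - β) = 0 := by
      have : (r : ℂ) ^ 2 - S 1 * r + d = 0 := by exact_mod_cast hr
      rw [hS1, ← hαβ] at this
      linear_combination this
    have e2 : 1 < ‖(r : ℂ)‖ ∧ ‖(r : ℂ)‖ < p := by
      rcases mul_eq_zero.1 e1 with h | h <;> rw [sub_eq_zero.1 h]
      exacts [⟨hα, hα'⟩, ⟨hβ, hβ'⟩]
    rw [Complex.norm_intCast] at e2
    have e3 : 1 < |r| ∧ |r| < p := by exact_mod_cast e2
    have e4 : r.natAbs * (S 1 - r).natAbs = p := by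
      rw [← Int.natAbs_mul, show r * (S 1 - r) = d by linear_combination -hr]
      exact_mod_cast (Int.natCast_natAbs d).trans h6
    rw [← Int.natCast_natAbs] at e3
    rcases (Nat.dvd_prime hp).1 ⟨_, e4.symm⟩ with h | h <;> rw [h] at e3 <;> omega

end

end Pool.Agent.MP_ea150c_mp.H74
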