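import Pool.Agent.MP_ea150c_mp.H20.Dich

/-! Recurrences for point counts whose order does not depend on the prime. -/

namespace Pool.Agent.MP_ea150c_mp.H74

open Polynomial H20 H49 H59

noncomputable section

/-- The primes from seven on. -/
def PP : Type := {p : ℕ // p.Prime ∧ 7 ≤ p}

instance (p : PP) : Fact p.1.Prime := ⟨p.2.1⟩

/-- Families of differences of traces with one profile for all primes. -/
def U (t : ∀ p : PP, ℕ → ℕ → ℤ_[p.1]) : Prop :=
  ∃ d : ℕ → ℕ, ∀ p S, ∃ a b, Tr p.1 d a ∧ Tr p.1 d b ∧ ∀ k, 1 ≤ k → t p S k = a k - b k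

variable {a b : ∀ p : PP, ℕ → ℕ → ℤ_[p.1]}

theorem u_congr (ha : U a) (h : ∀ p S k, 1 ≤ k → b p S k = a p S k) : U b := by
  obtain ⟨d, hd⟩ := ha
  refine ⟨d, fun p S => ?_⟩
  obtain ⟨u, v, hu, hv, e⟩ := hd p S
  exact ⟨u, v, hu, hv, fun k hk => (h p S k hk).trans (e k hk)⟩

theorem u_zero : U fun _ _ _ => 0 :=
  ⟨fun _ => 0, fun _ _ => ⟨_, _, tr_zero _, tr_zero _, fun _ _ => by simp⟩⟩

theorem u_one : U fun _ _ _ => 1 :=
  ⟨fun _ => 1, fun _ _ => ⟨fun _ => 1, _, ⟨Unit, inferInstance, inferInstance, 1, fun _ => 0,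
    fun _ _ => by simp, fun H => by simp, fun k _ => by simp⟩, tr_zero _, fun _ _ => by simp⟩⟩

theorem u_add (ha : U a) (hb : U b) : U fun p S k => a p S k + b p S k := by
  obtain ⟨d, hd⟩ := ha
  obtain ⟨d', hd'⟩ := hb
  refine ⟨fun H => d H + d' H, fun p S => ?_⟩
  obtain ⟨u, v, hu, hv, e⟩ := hd p S
  obtain ⟨u', v', hu', hv', e'⟩ := hd' p S
  refine ⟨_, _, tr_add hu hu', tr_add hv hv', fun k hk => ?_⟩
  beta_reduce
  rw [e k hk, e' k hk]
  ring

theorem u_neg (ha : U a) : U fun p S k => -a p S k := by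
  obtain ⟨d, hd⟩ := ha
  refine ⟨d, fun p S => ?_⟩
  obtain ⟨u, v, hu, hv, e⟩ := hd p S
  refine ⟨_, _, hv, hu, fun k hk => ?_⟩
  beta_reduce
  rw [e k hk]
  ring

theorem u_pow (x : ∀ p : PP, ℤ_[p.1]) (ha : U a) : U fun p S k => x p ^ k * a p S k := by
  obtain ⟨d, hd⟩ := ha
  refine ⟨d, fun p S => ?_⟩
  obtain ⟨u, v, hu, hv, e⟩ := hd p S
  refine ⟨_, _, tr_pow (x p) hu, tr_pow (x p) hv, fun k hk => ?_⟩
  beta_reduce
  rw [e k hk]
  ring

theorem u_int (e : ℤ) (ha : U a) : U fun p S k => (e : ℤ_[p.1]) * a p S k := by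
  induction e using Int.induction_on with
  | zero => exact u_congr u_zero fun _ _ _ _ => by simp
  | succ n ih => exact u_congr (u_add ih ha) fun _ _ _ _ => by push_cast; ring
  | pred n ih => exact u_congr (u_add ih (u_neg ha)) fun _ _ _ _ => by push_cast; ring

theorem u_sum {J : Type} (s : Finset J) (a : J → ∀ p : PP, ℕ → ℕ → ℤ_[p.1])
    (h : ∀ j ∈ s, U (a j)) : U fun p S k => ∑ j ∈ s, a j p S k := by
  classical
  induction s using Finset.induction_on with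
  | empty => exact u_congr u_zero fun _ _ _ _ => by simp
  | insert j s hj ih =>
    exact u_congr (u_add (h j (Finset.mem_insert_self j s))
      (ih fun i hi => h i (Finset.mem_insert_of_mem hi))) fun _ _ _ _ => Finset.sum_insert hj

theorem u_poly (f : ℤ[X]) (ha : U a) :
    U fun p S k => aeval ((p.1 : ℤ_[p.1]) ^ k) f * a p S k := by
  refine u_congr (u_sum (Finset.range (f.natDegree + 1)) _ fun j _ =>
    u_int (f.coeff j) (u_pow (fun p => (p.1 : ℤ_[p.1]) ^ j) ha)) fun p S k _ => ?_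
  rw [aeval_eq_sum_range, Finset.sum_mul]
  refine Finset.sum_congr rfl fun j _ => ?_
  rw [zsmul_eq_mul]
  ring

theorem u_cnt {σ ι : Type} [Fintype σ] [DecidableEq σ] [Fintype ι] [DecidableEq ι] (tor : σ → Prop)
    (fp : ι → MvPolynomial σ ℤ) : ∃ t, U t ∧ ∀ p S k, 1 ≤ k → ∀ (F : Type) [Field F] [Fintype F],
      Fintype.card F = p.1 ^ k → (p.1 : ℤ_[p.1]) ^ S ∣ (cnt tor fp F : ℤ_[p.1]) - t p S k := by
  classical
  choose M hM using fun p : PP => allK4 p.1 p.2.2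
  choose y hy using fun p : PP =>
    ((H20.lam_unit allK3 p.1 p.2.2).pow (Fintype.card ι)).exists_left_inv
  set D := Finset.univ.sup fun i => (fp i).totalDegree with hD
  have hfin : ∀ p S Z, {a | Core (ι := ι) tor D (M p S) Z a}.Finite := fun p S Z =>
    (box_finite D (M p S)).subset fun a ha => ⟨ha.1, ha.2.2.2.1, ha.2.2.2.2⟩
  have hT : ∀ Z : Finset σ, U fun p S k => trk p.1 fp (hfin p S Z).toFinset k := fun Z => by
    refine ⟨fun H => (box_finite (σ := σ) (ι := ι) D (2 * H)).toFinset.card, fun p S =>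
      ⟨_, _, ?_, tr_zero _, fun _ _ => (sub_zero _).symm⟩⟩
    refine ⟨(hfin p S Z).toFinset, inferInstance, _, Matrix.of fun a b => ent p.1 fp a.1 b.1,
      fun a => nu (∑ i, a.1.2 i), fun a b => allKRow p.1 p.2.2 σ ι fp a.1 b.1, fun H => ?_,
      fun k _ => rfl⟩
    refine Finset.card_le_card_of_injOn (fun a => a.1) (fun a ha => ?_)
      fun a _ b _ h => Subtype.ext h
    have h1 := (Set.Finite.mem_toFinset _).1 a.2
    have h2 : nu (∑ i, a.1.2 i) ≤ H := (Finset.mem_filter.1 ha).2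
    refine Finset.mem_coe.2 ((Set.Finite.mem_toFinset _).2 ⟨h1.1, h1.2.2.2.1, ?_⟩)
    unfold nu at h2
    beta_reduce
    omega
  refine ⟨_, u_pow y (u_sum (Finset.univ.filter fun x => ¬ tor x).powerset _ fun Z _ =>
    u_poly ((1 - X) ^ Fintype.card ι * (X ^ Z.card * (X - 1) ^ (Fintype.card σ - Z.card)))
      (hT Z)), fun p S k hk F _ _ hF => ?_⟩
  have h5 := (hM p S (M p S) le_rfl σ ι tor fp D (fun i => Finset.le_sup (f := fun i =>
    (fp i).totalDegree) (Finset.mem_univ i)) (fun Z => (hfin p S Z).toFinset)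
    (fun Z a => Set.Finite.mem_toFinset _) k hk F hF).mul_left (y p ^ k)
  rw [Finset.mul_sum, pow_mul, mul_sub, ← mul_assoc, ← mul_pow, hy, one_pow, one_mul] at h5
  refine (dvd_iff_dvd_of_dvd_sub ?_).1 h5
  simp [mul_assoc]

open Classical in
theorem hank (p : ℕ) [hp : Fact p.Prime] (c : ℕ → ℤ) (C D : ℕ)
    (hc : ∀ k, 1 ≤ k → |c k| ≤ (p : ℤ) ^ (C * k))
    (h : ∀ S : ℕ, ∃ s t : Multiset (Kp p), (∀ γ ∈ s + t, ‖γ‖ ≤ 1) ∧
      ((s + t).filter fun γ => ((p : ℝ) ^ (C + 1))⁻¹ < ‖γ‖).card ≤ D ∧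
      ∀ k, 1 ≤ k → ‖(c k : Kp p) - (ps s k - ps t k)‖ ≤ ((p : ℝ) ^ S)⁻¹)
    (m : ℕ) (hm : m = D + (C * D + 1)) :
    ∃ n₀ : ℕ, ∀ n, n₀ ≤ n → (Matrix.of fun i j : Fin m => c (n + i + j)).det = 0 := by
  have hp1 : 1 < p := hp.out.one_lt
  have hp1' : (1 : ℝ) ≤ p := by exact_mod_cast hp1.le
  refine ⟨m.factorial * p ^ (2 * C * m * m) + 1, fun n hn => ?_⟩
  obtain ⟨s, t, h1, h2, h3⟩ := h ((C + 1) * n)
  have hn1 : 1 ≤ n := by omega
  have hK := H19.hk_small (K := Kp p) (fun k => (c k : Kp p))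
    (fun k => IsUltrametricDist.norm_intCast_le_one _ _) (δ := ((p : ℝ) ^ (C + 1))⁻¹)
    (by positivity) (inv_le_one_of_one_le₀ (one_le_pow₀ hp1')) D (C * D + 1) n s t h1 h2
    fun k hk => by
      rw [inv_pow, ← pow_mul]
      exact h3 k (hn1.trans hk)
  rw [← hm] at hK
  set z := (Matrix.of fun i j : Fin m => c (n + i + j)).det with hz
  have e1 : (Matrix.of fun i j : Fin m => (c (n + i + j) : Kp p)).det =
      algebraMap ℚ_[p] (Kp p) (z : ℚ_[p]) := by
    rw [map_intCast, hz]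
    exact ((Int.castRingHom (Kp p)).map_det _).symm
  rw [e1, PadicAlgCl.norm_extends, inv_pow, inv_pow, ← pow_mul, ← pow_mul, ← zpow_natCast,
    ← zpow_neg, Padic.norm_int_le_pow_iff_dvd] at hK
  have hA : |z| ≤ m.factorial • ((p : ℤ) ^ (C * (n + 2 * m))) ^ m := by
    have := Matrix.det_le (A := Matrix.of fun i j : Fin m => c (n + i + j))
      (abv := AbsoluteValue.abs) (x := (p : ℤ) ^ (C * (n + 2 * m))) fun i j => by
        refine (hc _ (by omega)).trans (pow_le_pow_right₀ (by exact_mod_cast hp1.le) ?_)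
        exact Nat.mul_le_mul_left _ (by omega)
    rwa [Fintype.card_fin] at this
  refine Int.eq_zero_of_abs_lt_dvd hK (hA.trans_lt ?_)
  have e2 : (C + 1) * (n * (C * D + 1)) = n + C * n * m := by
    rw [hm]
    ring
  have e3 : C * (n + 2 * m) * m = 2 * C * m * m + C * n * m := by ring
  have h4 : m.factorial * p ^ (2 * C * m * m) < p ^ n :=
    (Nat.lt_of_succ_le hn).trans (Nat.lt_pow_self hp1)
  rw [← pow_mul, e2, e3, nsmul_eq_mul, pow_add, pow_add, ← mul_assoc]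
  refine mul_lt_mul_of_pos_right ?_ (by positivity)
  exact_mod_cast h4

theorem dep_unif (c : PP → ℕ → ℤ) (C : ℕ) (hc : ∀ p k, 1 ≤ k → |c p k| ≤ (p.1 : ℤ) ^ (C * k))
    (ha : U a) (h : ∀ p S k, 1 ≤ k → (p.1 : ℤ_[p.1]) ^ S ∣ (c p k : ℤ_[p.1]) - a p S k) :
    ∃ m, ∀ p, ∃ n₀, ∀ n, n₀ ≤ n → Dep (fun k => (c p k : ℚ)) n m := by
  classical
  obtain ⟨d, hd⟩ := ha
  obtain ⟨m, hm⟩ : ∃ m, m = 4 * d (2 * (C + 1)) + (C * (4 * d (2 * (C + 1))) + 1) := ⟨_, rfl⟩
  refine ⟨m, fun p => ?_⟩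
  obtain ⟨n₀, h0⟩ := hank p.1 (c p) C (4 * d (2 * (C + 1))) (hc p) (fun S => by
    obtain ⟨x, y, hx, hy, hxy⟩ := hd p S
    obtain ⟨s₁, a1, a2, a3⟩ := H16.roots_of_tr p.1 H44.sPow H70.sGN d x hx (C + 1) C.succ_pos
    obtain ⟨s₂, b1, b2, b3⟩ := H16.roots_of_tr p.1 H44.sPow H70.sGN d y hy (C + 1) C.succ_pos
    refine ⟨s₁, s₂, fun γ hγ => (Multiset.mem_add.1 hγ).elim (a1 γ) (b1 γ), ?_, fun k hk => ?_⟩
    · rw [Multiset.filter_add, Multiset.card_add]
      omega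
    · have h1 := H16.norm_io_le p.1 (h p S k hk)
      rwa [hxy k hk, map_sub, map_sub, map_intCast, a3 k hk, b3 k hk] at h1) m hm
  refine ⟨n₀, fun n hn => ?_⟩
  have h1 : (Matrix.of fun i j : Fin m => (c p (n + i + j) : ℚ)).det = 0 := by
    have h2 := (Int.castRingHom ℚ).map_det (Matrix.of fun i j : Fin m => c p (n + i + j))
    rw [h0 n hn, map_zero] at h2
    exact h2.symm
  obtain ⟨v, hv, h2⟩ := Matrix.exists_mulVec_eq_zero_iff.2 h1
  obtain ⟨i, hi⟩ := Function.ne_iff.1 hv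
  refine ⟨fun i => if h : i < m then v ⟨i, h⟩ else 0, ⟨i, i.2, by simpa using hi⟩, fun j hj => ?_⟩
  have h3 := congrFun h2 ⟨j, hj⟩
  rw [Finset.sum_range]
  simpa [Matrix.mulVec, dotProduct, mul_comm] using h3

theorem dep_scale {c e : ℕ → ℚ} {r : ℚ} (hr : r ≠ 0) {n m : ℕ} (hn : 1 ≤ n)
    (h : ∀ k, 1 ≤ k → c k = r ^ k * e k) (hd : Dep c n m) : Dep e n m := by
  obtain ⟨a, ⟨i, hi, ha⟩, h2⟩ := hd
  refine ⟨fun i => a i * r ^ i, ⟨i, hi, mul_ne_zero ha (pow_ne_zero _ hr)⟩, fun j hj => ?_⟩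
  refine (mul_eq_zero.1 ?_).resolve_left (pow_ne_zero (n + j) hr)
  rw [← h2 j hj, Finset.mul_sum]
  exact Finset.sum_congr rfl fun l _ => by rw [h _ (by omega)]; ring

open Finset in
theorem dep_rec' (c : ℕ → ℚ) (m : ℕ) : ∀ n₀, (∀ n, n₀ ≤ n → Dep c n m) →
    ∃ (a : ℕ → ℚ) (r k₀ : ℕ), r ≤ m ∧ (∃ i < r, a i ≠ 0) ∧
      ∀ k, k₀ ≤ k → ∑ i ∈ range r, a i * c (k + i) = 0 := by
  induction m with
  | zero => intro n₀ h; obtain ⟨a, ⟨i, hi, -⟩, -⟩ := h n₀ le_rfl; omega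
  | succ m ih =>
    intro n₀ h
    by_cases h1 : ∃ n₁, n₀ ≤ n₁ ∧ Dep c n₁ m
    · obtain ⟨n₁, h2, h3⟩ := h1
      obtain ⟨a, r, k₀, h4, h5⟩ := ih n₁ fun n hn => Nat.le_induction h3
        (fun n hn h4 => dep_step (h n (by omega)) h4) n hn
      exact ⟨a, r, k₀, by omega, h5⟩
    · push Not at h1
      obtain ⟨a, a1, a2⟩ := h n₀ le_rfl
      have h2 : ∀ n, n₀ ≤ n → ∀ j < m + 1, ∑ i ∈ range (m + 1), a i * c (n + j + i) = 0 := by
        refine Nat.le_induction a2 fun n hn h3 j hj => ?_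
        obtain ⟨b, b1, b2⟩ := h (n + 1) (by omega)
        have hb : b m ≠ 0 := fun e =>
          h1 (n + 1) (by omega) (dep_cut e b1 fun j hj => b2 j (by omega))
        have h4 : ∀ i < m + 1, b m * a i - a m * b i = 0 := by
          by_contra h5
          push Not at h5
          refine h1 (n + 1) (by omega) (dep_cut (a := fun i => b m * a i - a m * b i)
            (by ring) h5 fun l hl => ?_)
          have h6 := h3 (l + 1) (by omega)
          rw [add_comm l 1, ← add_assoc] at h6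
          simp only [sub_mul, mul_assoc, sum_sub_distrib, ← mul_sum, h6, b2 l (by omega), mul_zero,
            sub_self]
        refine (mul_eq_zero.1 ?_).resolve_left hb
        rw [← mul_zero (a m), ← b2 j hj, mul_sum, mul_sum]
        exact sum_congr rfl fun i hi => by
          linear_combination c (n + 1 + j + i) * h4 i (mem_range.1 hi)
      exact ⟨a, m + 1, n₀, le_rfl, a1, fun k hk => h2 k hk 0 (by omega)⟩

open Finset in
theorem rec_of_dep (c : ℕ → ℚ) (m n₀ : ℕ) (h : ∀ n, n₀ ≤ n → Dep c n m) :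
    ∃ (μ : ℚ[X]) (k₀ : ℕ), μ ≠ 0 ∧ μ.natDegree ≤ m ∧ ∀ k, k₀ ≤ k → H86.act μ c k = 0 := by
  obtain ⟨a, r, k₀, hr, ⟨i, hi, ha⟩, h1⟩ := dep_rec' c m n₀ h
  have h2 : ∀ l, (∑ j ∈ range r, monomial j (a j)).coeff l = if l < r then a l else 0 := fun l => by
    simp [coeff_monomial]
  refine ⟨∑ j ∈ range r, monomial j (a j), k₀, fun e => ha ?_,
    natDegree_le_iff_coeff_eq_zero.2 fun l hl => by rw [h2, if_neg (by omega)], fun k hk => ?_⟩
  · simpa [e, hi] using (h2 i).symm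
  · rw [H86.act_apply, sum_subset (s₂ := range r) (fun l hl => by
      by_contra h3
      exact mem_support_iff.1 hl (by rw [h2, if_neg (by simpa using h3)]))
      (fun l _ hl => by rw [notMem_support_iff.1 hl, zero_mul]), ← h1 k hk]
    exact sum_congr rfl fun l hl => by rw [h2, if_pos (mem_range.1 hl)]

variable {V E : Type} [Fintype V] [DecidableEq V] [Fintype E] [DecidableEq E] (s t : E → V)

omit [DecidableEq V] in
theorem xg_cnt (F : Type) [Field F] [Fintype F] : (XG s t F : ℤ) = Fintype.card F ^ Fintype.card E -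
    cnt (fun _ : E => False) (fun _ : Unit => Psi s t MvPolynomial.X) F := by
  classical
  have h1 : ∀ x : E → F, MvPolynomial.eval₂ (Int.castRingHom F) x (Psi s t MvPolynomial.X) =
      Psi s t x := fun x => by
    simp [Psi, MvPolynomial.eval₂_sum, MvPolynomial.eval₂_prod]
  have h2 := Finset.card_filter_add_card_filter_not (s := (Finset.univ : Finset (E → F)))
    fun x => Psi s t x = 0
  rw [Finset.card_univ, Fintype.card_fun] at h2
  rw [XG, Nat.card_eq_fintype_card, Fintype.card_subtype, eq_sub_iff_add_eq, cnt]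
  simp only [h1, IsEmpty.forall_iff, forall_const, implies_true, true_and]
  norm_cast
  rw [← h2]
  congr 2
  ext x
  simp only [Finset.mem_filter, Finset.mem_univ]

theorem xg_eq (hG : GoodG s t) (F : Type) [Field F] [Fintype F] :
    (XG s t F : ℤ) = Fintype.card F ^ 2 * c2 s t F := by
  have h : Fintype.card F ^ 2 ∣ XG s t F := by
    by_cases h5 : 5 ≤ Fintype.card V
    · obtain ⟨m, G, g1, g2, g3, g4⟩ := (H83.sTrans V E s t).1 hG h5
      have hm : 4 ≤ m := by simpa using g1.four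
      obtain ⟨h2, n, h3⟩ := sM (Fin m) E G (by simp; omega) (by simpa using g2) g3 F
      have h4 : (Fintype.card F : ℤ) ^ 2 ∣ (G.N4pos F : ℤ) := ⟨n, by exact_mod_cast h3⟩
      rw [← g4]
      exact_mod_cast (dvd_add_left h4).1 ((pow_dvd_pow _ (by norm_num)).trans h2)
    · have h1 := H15.xgK4 s t hG (by omega) F
      have h2 : (Fintype.card F : ℤ) ^ 2 ∣ XG s t F := by
        rw [h1]
        exact ⟨(Fintype.card F : ℤ) ^ 3 + Fintype.card F - 1, by ring⟩
      exact_mod_cast h2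
  rw [c2, Nat.card_eq_fintype_card]
  exact_mod_cast (Nat.mul_div_cancel' h).symm

omit [DecidableEq V] in
theorem xg_le (F : Type) [Field F] [Fintype F] : XG s t F ≤ Fintype.card F ^ Fintype.card E := by
  classical
  rw [XG, Nat.card_eq_fintype_card, ← Fintype.card_fun]
  exact Fintype.card_subtype_le _

/-- The invariants at the powers of a prime satisfy a recurrence of bounded order. -/
theorem rec_c2 (hG : GoodG s t) : ∃ m, ∀ p : PP, ∃ (μ : ℚ[X]) (k₀ : ℕ), μ ≠ 0 ∧ μ.natDegree ≤ m ∧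
    ∀ k, k₀ ≤ k → H86.act μ (fun k => ((-c2 s t (GaloisField p.1 k) : ℤ) : ℚ)) k = 0 := by
  let _ := fun (p : PP) k => Fintype.ofFinite (GaloisField p.1 k)
  obtain ⟨a, ha, h⟩ := u_cnt (fun _ : E => False) (fun _ : Unit => Psi s t MvPolynomial.X)
  obtain ⟨m, hm⟩ := dep_unif (fun p k => -(XG s t (GaloisField p.1 k) : ℤ)) (Fintype.card E)
    (fun p k hk => by
      have h1 := xg_le s t (GaloisField p.1 k)
      rw [card_gf p.1 k hk, ← pow_mul, mul_comm] at h1
      rw [abs_neg, Nat.abs_cast]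
      exact_mod_cast h1)
    (u_add ha (u_neg (u_pow (fun p => (p.1 : ℤ_[p.1]) ^ Fintype.card E) u_one)))
    fun p S k hk => by
      refine (dvd_iff_dvd_of_dvd_sub ?_).1 (h p S k hk _ (card_gf p.1 k hk))
      rw [xg_cnt, card_gf p.1 k hk]
      push_cast
      rw [← pow_mul, ← pow_mul, mul_comm k]
      ring_nf
      exact dvd_zero _
  refine ⟨m, fun p => ?_⟩
  obtain ⟨n₀, h0⟩ := hm p
  refine rec_of_dep _ m (n₀ + 1) fun n hn => dep_scale (r := (p.1 : ℚ) ^ 2)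
    (pow_ne_zero _ (Nat.cast_ne_zero.2 p.2.1.ne_zero)) (by omega) (fun k hk => ?_)
    (h0 n (by omega))
  rw [xg_eq s t hG, card_gf p.1 k hk]
  push_cast
  ring

end

end Pool.Agent.MP_ea150c_mp.H74
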